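import Mathlib

/-!
# Forcing cliques in the degree-preserving Builder-Chooser game

We prove that `ρ(k, g) < ∞` for all integers `k, g ≥ 3`.
-/

set_option autoImplicit false

namespace Pool.Agent.Results.MP_d3b86e_co.CliqueForcing

open SimpleGraph

/-! ## The game -/

/-- The graph `G⁺ = G - M + {w z : z ∈ V(M)}`: the edges of `M` are deleted and a new vertex
`w = none` is joined to every vertex covered by `M`. -/
def plus {V : Type} (G : SimpleGraph V) (M : G.Subgraph) : SimpleGraph (Option V) where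
  Adj
    | some a, some b => G.Adj a b ∧ ¬ M.Adj a b
    | none, some b => b ∈ M.verts
    | some a, none => a ∈ M.verts
    | none, none => False
  symm := ⟨by
    rintro (_ | a) (_ | b) h
    · exact h
    · exact h
    · exact h
    · exact ⟨h.1.symm, fun h' => h.2 h'.symm⟩⟩
  loopless := ⟨by
    rintro (_ | a) h
    · exact h
    · exact G.loopless.irrefl a h.1⟩

/-- `Forces H t V G`: starting from the graph `G`, Builder has a strategy guaranteeing that after
exactly `t` rounds the current graph contains a (not necessarily induced) copy of `H`, whatever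
Chooser does. In each round Builder picks a matching `M` of the current graph and a partition of
the edges of `G⁺` into two classes, and then Chooser picks the class that is kept. -/
def Forces {W : Type} (H : SimpleGraph W) : ℕ → (V : Type) → SimpleGraph V → Prop
  | 0, _, G => H.IsContained G
  | t + 1, V, G => ∃ M : G.Subgraph, M.IsMatching ∧
      ∃ E₀ E₁ : SimpleGraph (Option V), E₀ ⊔ E₁ = plus G M ∧ Disjoint E₀ E₁ ∧
        Forces H t (Option V) E₀ ∧ Forces H t (Option V) E₁

/-- The forcing time `τ_H(G)`: the least `t` such that Builder can force a copy of `H` to be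
present after `t` rounds, and `∞` if there is no such `t`. -/
noncomputable def tau {W V : Type} (H : SimpleGraph W) (G : SimpleGraph V) : ℕ∞ :=
  ⨅ (t : ℕ) (_ : Forces H t V G), (t : ℕ∞)

/-- `ρ(k, g)`: the minimum of `τ_{K_k}(G)` over all finite graphs `G` of girth at least `g`
(acyclic graphs have girth `∞`). -/
noncomputable def rho (k g : ℕ) : ℕ∞ :=
  ⨅ (n : ℕ) (G : SimpleGraph (Fin n)) (_ : (g : ℕ∞) ≤ G.egirth), tau (completeGraph (Fin k)) G

/-! ## Monotonicity of the game -/

theorem Forces.mono {W : Type} {H : SimpleGraph W} : ∀ (t : ℕ) {V V' : Type} {G : SimpleGraph V}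
    {G' : SimpleGraph V'}, G.IsContained G' → Forces H t V G → Forces H t V' G' := by
  intro t
  induction t with
  | zero =>
    intro V V' G G' h hF
    exact IsContained.trans hF h
  | succ t ih =>
    intro V V' G G' h hF
    obtain ⟨f⟩ := h
    obtain ⟨M, hM, E₀, E₁, hE, hd, h0, h1⟩ := hF
    have hfi : Function.Injective f.toHom := f.injective
    let F : Option V ↪ Option V' := (⟨f.toHom, hfi⟩ : V ↪ V').optionMap
    have hFn : F none = none := rfl
    have hFs : ∀ a, F (some a) = some (f.toHom a) := fun a => rfl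
    let M' : G'.Subgraph := M.map f.toHom
    have hM' : M'.IsMatching := hM.map f.toHom hfi
    have key : ∀ x y, (plus G M).Adj x y → (plus G' M').Adj (F x) (F y) := by
      rintro (_ | a) (_ | b) hab
      · exact hab
      · exact ⟨b, hab, rfl⟩
      · exact ⟨a, hab, rfl⟩
      · refine ⟨f.toHom.map_adj hab.1, ?_⟩
        rintro ⟨a', b', hab', h1, h2⟩
        rw [hfi h1, hfi h2] at hab'
        exact hab.2 hab'
    have hE0 : E₀ ≤ plus G M := hE ▸ le_sup_left
    have hE1 : E₁ ≤ plus G M := hE ▸ le_sup_right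
    refine ⟨M', hM', E₀.map F, plus G' M' \ E₀.map F, ?_, disjoint_sdiff_self_right, ?_, ?_⟩
    · apply sup_sdiff_cancel_right
      intro x y hxy
      rw [SimpleGraph.map_adj] at hxy
      obtain ⟨u, v, huv, rfl, rfl⟩ := hxy
      exact key _ _ (hE0 huv)
    · refine ih ⟨⟨⟨F, fun {a b} hab => ?_⟩, F.injective⟩⟩ h0
      exact (SimpleGraph.map_adj _ _ _ _).2 ⟨a, b, hab, rfl, rfl⟩
    · refine ih ⟨⟨⟨F, fun {a b} hab => ?_⟩, F.injective⟩⟩ h1
      rw [SimpleGraph.sdiff_adj]
      refine ⟨key _ _ (hE1 hab), ?_⟩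
      rw [SimpleGraph.map_adj]
      rintro ⟨u, v, huv, hu, hv⟩
      rw [F.injective hu, F.injective hv] at huv
      have : (E₀ ⊓ E₁).Adj a b := ⟨huv, hab⟩
      rw [hd.eq_bot] at this
      exact this

/-! ## The simplified game on the new vertices -/

/-- Add a new vertex `none` to `N`, joined to the vertices in `S`. -/
def ext {A : Type} (N : SimpleGraph A) (S : Set A) : SimpleGraph (Option A) where
  Adj
    | some a, some b => N.Adj a b
    | none, some b => b ∈ S
    | some a, none => a ∈ S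
    | none, none => False
  symm := ⟨by
    rintro (_ | a) (_ | b) h
    · exact h
    · exact h
    · exact h
    · exact h.symm⟩
  loopless := ⟨by
    rintro (_ | a) h
    · exact h
    · exact N.loopless.irrefl a h⟩

/-- The simplified game: in each round a new vertex is joined to an arbitrary set of the present
vertices, and then the edges are split (some may be thrown away) and Chooser picks a class. -/
def NForces (k : ℕ) : ℕ → (A : Type) → SimpleGraph A → Prop
  | 0, _, N => (completeGraph (Fin k)).IsContained N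
  | t + 1, A, N => ∃ S : Set A, ∃ E₀ E₁ : SimpleGraph (Option A), E₀ ⊔ E₁ ≤ ext N S ∧
      Disjoint E₀ E₁ ∧ NForces k t (Option A) E₀ ∧ NForces k t (Option A) E₁

/-- The host graph of `N`: every vertex of `N` gets pendant edges indexed by `D`, and there are
isolated edges indexed by `R`. -/
def host {A : Type} (N : SimpleGraph A) (D R : Type) :
    SimpleGraph (A ⊕ (A × D) ⊕ (R × Bool)) where
  Adj
    | .inl a, .inl b => N.Adj a b
    | .inl a, .inr (.inl b) => a = b.1
    | .inr (.inl a), .inl b => a.1 = b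
    | .inr (.inr r), .inr (.inr s) => r.1 = s.1 ∧ r.2 ≠ s.2
    | _, _ => False
  symm := ⟨by
    rintro (a | a | a) (b | b | b) h
    · exact h.symm
    · exact h.symm
    · exact h
    · exact h.symm
    · exact h
    · exact h
    · exact h
    · exact h
    · exact ⟨h.1.symm, h.2.symm⟩⟩
  loopless := ⟨by
    rintro (a | a | a) h
    · exact N.loopless.irrefl a h
    · exact h
    · exact h.2 rfl⟩

/-- The matching used by Builder in a host graph. -/
def hostM {A : Type} (N : SimpleGraph A) (D R : Type) (S : Set A) :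
    (host N ((D × Bool) ⊕ Unit) ((R × Bool) ⊕ D)).Subgraph where
  verts := {x | match x with
    | .inl a => a ∈ S
    | .inr (.inl (a, .inr _)) => a ∈ S
    | .inr (.inr (.inr _, _)) => True
    | _ => False}
  Adj
    | .inl a, .inr (.inl (b, .inr _)) => a ∈ S ∧ a = b
    | .inr (.inl (a, .inr _)), .inl b => a ∈ S ∧ a = b
    | .inr (.inr (.inr d, i)), .inr (.inr (.inr e, j)) => d = e ∧ i ≠ j
    | _, _ => False
  adj_sub := by
    rintro (a | ⟨a, d | u⟩ | ⟨r | d, i⟩) (b | ⟨b, e | v⟩ | ⟨s | e, j⟩) h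
    all_goals first
      | exact h.elim
      | exact h.2
      | exact ⟨congrArg Sum.inr h.1, h.2⟩
  edge_vert := by
    rintro (a | ⟨a, d | u⟩ | ⟨r | d, i⟩) (b | ⟨b, e | v⟩ | ⟨s | e, j⟩) h
    all_goals first
      | exact h.elim
      | exact h.1
      | exact trivial
  symm := ⟨by
    rintro (a | ⟨a, d | u⟩ | ⟨r | d, i⟩) (b | ⟨b, e | v⟩ | ⟨s | e, j⟩) h
    all_goals first
      | exact h.elim
      | exact ⟨h.2 ▸ h.1, h.2.symm⟩
      | exact ⟨h.1.symm, h.2.symm⟩⟩

theorem hostM_isMatching {A : Type} (N : SimpleGraph A) (D R : Type) (S : Set A) :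
    (hostM N D R S).IsMatching := by
  rintro (a | ⟨a, d | u⟩ | ⟨r | d, i⟩) h
  · refine ⟨.inr (.inl (a, .inr ())), ⟨h, rfl⟩, ?_⟩
    rintro (b | ⟨b, e | v⟩ | ⟨s | e, j⟩) h'
    all_goals first
      | exact h'.elim
      | (obtain ⟨h1, rfl⟩ := h'; rfl)
  · exact h.elim
  · refine ⟨.inl a, ⟨h, rfl⟩, ?_⟩
    rintro (b | ⟨b, e | v⟩ | ⟨s | e, j⟩) h'
    all_goals first
      | exact h'.elim
      | (obtain ⟨h1, rfl⟩ := h'; rfl)
  · exact h.elim
  · refine ⟨.inr (.inr (.inr d, !i)), ⟨rfl, by simp⟩, ?_⟩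
    rintro (b | ⟨b, e | v⟩ | ⟨s | e, j⟩) h'
    all_goals first
      | exact h'.elim
      | (obtain ⟨h1, h2⟩ := h'
         subst h1
         have : j = !i := by
           cases i <;> cases j <;> simp_all
         rw [this])

/-- The placement of the host graph of a class in the graph `G⁺`. -/
def place {A : Type} (D R : Type) (i : Bool) :
    (Option A ⊕ (Option A × D) ⊕ (R × Bool)) →
      Option (A ⊕ (A × ((D × Bool) ⊕ Unit)) ⊕ (((R × Bool) ⊕ D) × Bool))
  | .inl none => none
  | .inl (some a) => some (.inl a)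
  | .inr (.inl (none, d)) => some (.inr (.inr (.inr d, i)))
  | .inr (.inl (some a, d)) => some (.inr (.inl (a, .inl (d, i))))
  | .inr (.inr (r, b)) => some (.inr (.inr (.inl (r, i), b)))

theorem place_injective {A : Type} (D R : Type) (i : Bool) :
    Function.Injective (place (A := A) D R i) := by
  rintro ((_ | a) | ⟨(_ | a), d⟩ | ⟨r, b⟩) ((_ | a') | ⟨(_ | a'), d'⟩ | ⟨r', b'⟩) h <;>
    simp [place] at h ⊢ <;> simp_all

theorem place_adj {A : Type} {N : SimpleGraph A} {D R : Type} {S : Set A} (i : Bool)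
    {E : SimpleGraph (Option A)} (hE : E ≤ ext N S) {x y} (h : (host E D R).Adj x y) :
    (plus (host N ((D × Bool) ⊕ Unit) ((R × Bool) ⊕ D)) (hostM N D R S)).Adj
      (place D R i x) (place D R i y) := by
  rcases x with ((_ | a) | ⟨(_ | a), d⟩ | ⟨r, b⟩) <;>
    rcases y with ((_ | a') | ⟨(_ | a'), d'⟩ | ⟨r', b'⟩)
  all_goals first
    | exact h.elim
    | exact (E.loopless.irrefl _ h).elim
    | exact (hE h)
    | exact ⟨hE h, fun h' => h'⟩
    | exact (Option.some_ne_none _ (show some _ = none from h)).elim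
    | exact (Option.some_ne_none _ (show some _ = none from Eq.symm h)).elim
    | exact trivial
    | exact ⟨Option.some_injective _ h, fun h' => h'⟩
    | exact ⟨⟨congrArg (fun z => Sum.inl (z, i)) h.1, h.2⟩, fun h' => h'⟩

theorem place_disjoint {A : Type} {D R : Type}
    {E₀ E₁ : SimpleGraph (Option A)} (hd : Disjoint E₀ E₁) {x y x' y'}
    (h : (host E₀ D R).Adj x y) (h' : (host E₁ D R).Adj x' y')
    (hx : place D R false x = place D R true x') (hy : place D R false y = place D R true y') :
    False := by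
  rcases x with ((_ | a) | ⟨(_ | a), d⟩ | ⟨r, b⟩) <;>
    rcases x' with ((_ | a') | ⟨(_ | a'), d'⟩ | ⟨r', b'⟩) <;>
    simp [place] at hx <;>
    rcases y with ((_ | c) | ⟨(_ | c), e⟩ | ⟨s, u⟩) <;>
    rcases y' with ((_ | c') | ⟨(_ | c'), e'⟩ | ⟨s', u'⟩) <;>
    simp [place] at hy
  · exact E₀.loopless.irrefl _ h
  · subst hy
    have : (E₀ ⊓ E₁).Adj none (some c) := ⟨h, h'⟩
    rw [hd.eq_bot] at this
    exact this
  · subst hx
    have : (E₀ ⊓ E₁).Adj (some a) none := ⟨h, h'⟩
    rw [hd.eq_bot] at this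
    exact this
  · subst hx
    subst hy
    have : (E₀ ⊓ E₁).Adj (some a) (some c) := ⟨h, h'⟩
    rw [hd.eq_bot] at this
    exact this

/-- The index types of the spare pendant edges and of the reserve edges. -/
def DR : ℕ → Type × Type
  | 0 => (Empty, Empty)
  | t + 1 => (((DR t).1 × Bool) ⊕ Unit, ((DR t).2 × Bool) ⊕ (DR t).1)

theorem DR_finite : ∀ t, Finite (DR t).1 ∧ Finite (DR t).2
  | 0 => ⟨inferInstanceAs (Finite Empty), inferInstanceAs (Finite Empty)⟩
  | t + 1 => by
    obtain ⟨h1, h2⟩ := DR_finite t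
    exact ⟨inferInstanceAs (Finite (((DR t).1 × Bool) ⊕ Unit)),
      inferInstanceAs (Finite (((DR t).2 × Bool) ⊕ (DR t).1))⟩

/-- A strategy in the simplified game can be carried out in the real game on a host graph. -/
theorem transfer (k : ℕ) : ∀ (t : ℕ) {A : Type} {N : SimpleGraph A}, NForces k t A N →
    Forces (completeGraph (Fin k)) t (A ⊕ (A × (DR t).1) ⊕ ((DR t).2 × Bool))
      (host N (DR t).1 (DR t).2) := by
  intro t
  induction t with
  | zero =>
    intro A N h
    refine IsContained.trans h ⟨⟨⟨fun a => .inl a, fun {a b} hab => hab⟩, ?_⟩⟩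
    exact Sum.inl_injective
  | succ t ih =>
    intro A N h
    obtain ⟨S, E₀, E₁, hE, hd, h0, h1⟩ := h
    have hE0 : E₀ ≤ ext N S := le_sup_left.trans hE
    have hE1 : E₁ ≤ ext N S := le_sup_right.trans hE
    change Forces (completeGraph (Fin k)) (t + 1)
      (A ⊕ (A × (((DR t).1 × Bool) ⊕ Unit)) ⊕ ((((DR t).2 × Bool) ⊕ (DR t).1) × Bool))
      (host N (((DR t).1 × Bool) ⊕ Unit) (((DR t).2 × Bool) ⊕ (DR t).1))
    let P : Bool → _ ↪ _ := fun i =>
      ⟨place (A := A) (DR t).1 (DR t).2 i, place_injective (DR t).1 (DR t).2 i⟩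
    let G' := (host E₀ (DR t).1 (DR t).2).map (P false)
    let GP := plus (host N (((DR t).1 × Bool) ⊕ Unit) (((DR t).2 × Bool) ⊕ (DR t).1))
      (hostM N (DR t).1 (DR t).2 S)
    refine ⟨hostM N (DR t).1 (DR t).2 S, hostM_isMatching _ _ _ _, G', GP \ G', ?_,
      disjoint_sdiff_self_right, ?_, ?_⟩
    · apply sup_sdiff_cancel_right
      intro x y hxy
      rw [SimpleGraph.map_adj] at hxy
      obtain ⟨u, v, huv, rfl, rfl⟩ := hxy
      exact place_adj false hE0 huv
    · refine Forces.mono t ⟨⟨⟨P false, fun {a b} hab => ?_⟩, (P false).injective⟩⟩ (ih h0)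
      exact (SimpleGraph.map_adj _ _ _ _).2 ⟨a, b, hab, rfl, rfl⟩
    · refine Forces.mono t ⟨⟨⟨P true, fun {a b} hab => ?_⟩, (P true).injective⟩⟩ (ih h1)
      rw [SimpleGraph.sdiff_adj]
      refine ⟨place_adj true hE1 hab, ?_⟩
      rw [SimpleGraph.map_adj]
      rintro ⟨u, v, huv, hu, hv⟩
      exact place_disjoint hd huv hab hu hv

/-! ## The strategy in the simplified game -/

/-- If Builder can force `K_k` in `T` rounds on the top part, then he can force `K_{k+1}` in `T`
rounds if there are `2 ^ T` page vertices, all joined to all of the top part. -/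
theorem pages (k : ℕ) : ∀ (T : ℕ) {B : Type} {N' : SimpleGraph B}, NForces k T B N' →
    ∀ {A : Type} {N : SimpleGraph A} (ι : B ↪ A) (W : Finset A),
      (∀ b b', N'.Adj b b' → N.Adj (ι b) (ι b')) → (∀ w ∈ W, ∀ b, N.Adj w (ι b)) →
      2 ^ T ≤ W.card → NForces (k + 1) T A N := by
  intro T
  induction T with
  | zero =>
    intro B N' h A N ι W hN hW hc
    obtain ⟨f⟩ := h
    have hne : W.Nonempty := Finset.card_pos.1 (by simpa using hc)
    obtain ⟨w, hw⟩ := hne
    have hfi : Function.Injective f.toHom := f.injective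
    have hwb : ∀ b, w ≠ ι b := by
      intro b hb
      have := hW w hw b
      rw [← hb] at this
      exact N.loopless.irrefl _ this
    let c : Fin (k + 1) → A := Fin.cons w (fun i => ι (f.toHom i))
    have hc0 : c 0 = w := rfl
    have hcs : ∀ i : Fin k, c i.succ = ι (f.toHom i) := fun i => rfl
    refine ⟨⟨⟨c, fun {i j} hij => ?_⟩, ?_⟩⟩
    · have hij' : i ≠ j := hij
      rcases Fin.eq_zero_or_eq_succ i with rfl | ⟨i, rfl⟩ <;>
        rcases Fin.eq_zero_or_eq_succ j with rfl | ⟨j, rfl⟩
      · exact (hij' rfl).elim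
      · rw [hc0, hcs]
        exact hW w hw _
      · rw [hc0, hcs]
        exact (hW w hw _).symm
      · rw [hcs, hcs]
        refine hN _ _ (f.toHom.map_adj ?_)
        intro h'
        exact hij' (by rw [h'])
    · intro i j hij
      have hij' : c i = c j := hij
      rcases Fin.eq_zero_or_eq_succ i with rfl | ⟨i, rfl⟩ <;>
        rcases Fin.eq_zero_or_eq_succ j with rfl | ⟨j, rfl⟩
      · rfl
      · rw [hc0, hcs] at hij'
        exact (hwb _ hij').elim
      · rw [hc0, hcs] at hij'
        exact (hwb _ hij'.symm).elim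
      · rw [hcs, hcs] at hij'
        rw [hfi (ι.injective hij')]
  | succ T ih =>
    intro B N' h A N ι W hN hW hc
    obtain ⟨S', E₀', E₁', hE, hd, h0, h1⟩ := h
    have hwb : ∀ w ∈ W, ∀ b, w ≠ ι b := by
      intro w hw b hb
      have := hW w hw b
      rw [← hb] at this
      exact N.loopless.irrefl _ this
    obtain ⟨W₀, hW₀, hc₀⟩ := Finset.exists_subset_card_eq
      (show 2 ^ T ≤ W.card from le_trans (Nat.pow_le_pow_right (by norm_num) (Nat.le_succ T)) hc)
    classical
    have hWc : 2 ^ T ≤ (W \ W₀).card := by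
      rw [Finset.card_sdiff_of_subset hW₀, hc₀]
      rw [pow_succ] at hc
      omega
    let ι' : Option B ↪ Option A := ι.optionMap
    have hι'n : ι' none = none := rfl
    have hι's : ∀ b, ι' (some b) = some (ι b) := fun b => rfl
    have hwb' : ∀ w ∈ W, ∀ b, some w ≠ ι' b := by
      intro w hw b hb
      cases b with
      | none => exact Option.some_ne_none _ hb
      | some b => exact hwb w hw b (Option.some_injective _ hb)
    let E : Finset A → SimpleGraph (Option B) → SimpleGraph (Option A) := fun X F =>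
      F.map ι' ⊔ SimpleGraph.fromRel (fun x y => ∃ w ∈ X, ∃ b, x = some w ∧ y = ι' b)
    have hEle : ∀ X ⊆ W, ∀ F ≤ ext N' S', E X F ≤ ext N (ι '' S' ∪ W) := by
      intro X hX F hF x y hxy
      rcases hxy with hxy | hxy
      · rw [SimpleGraph.map_adj] at hxy
        obtain ⟨u, v, huv, rfl, rfl⟩ := hxy
        have := hF huv
        rcases u with _ | u <;> rcases v with _ | v
        · exact this
        · exact Or.inl ⟨v, this, rfl⟩
        · exact Or.inl ⟨u, this, rfl⟩
        · exact hN _ _ this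
      · rw [SimpleGraph.fromRel_adj] at hxy
        obtain ⟨hne, ⟨w, hw, b, rfl, rfl⟩ | ⟨w, hw, b, rfl, rfl⟩⟩ := hxy
        · rcases b with _ | b
          · exact Or.inr (hX hw)
          · exact hW w (hX hw) b
        · rcases b with _ | b
          · exact Or.inr (hX hw)
          · exact (hW w (hX hw) b).symm
    have hE0' : E₀' ≤ ext N' S' := le_sup_left.trans hE
    have hE1' : E₁' ≤ ext N' S' := le_sup_right.trans hE
    have hne : ∀ X ⊆ W, ∀ Y ⊆ W, Disjoint X Y → ∀ F F', Disjoint F F' → Disjoint (E X F) (E Y F') := by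
      intro X hX Y hY hXY F F' hFF'
      rw [disjoint_iff_inf_le]
      intro x y hxy
      obtain ⟨h1, h2⟩ := hxy
      rcases h1 with h1 | h1 <;> rcases h2 with h2 | h2
      · rw [SimpleGraph.map_adj] at h1 h2
        obtain ⟨u, v, huv, rfl, rfl⟩ := h1
        obtain ⟨u', v', huv', h3, h4⟩ := h2
        rw [ι'.injective h3, ι'.injective h4] at huv'
        have : (F ⊓ F').Adj u v := ⟨huv, huv'⟩
        rw [hFF'.eq_bot] at this
        exact this
      · rw [SimpleGraph.map_adj] at h1
        obtain ⟨u, v, huv, rfl, rfl⟩ := h1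
        obtain ⟨_, ⟨w, hw, b, h3, h4⟩ | ⟨w, hw, b, h3, h4⟩⟩ := h2
        · exact hwb' w (hY hw) _ h3.symm
        · exact hwb' w (hY hw) _ h3.symm
      · rw [SimpleGraph.map_adj] at h2
        obtain ⟨u, v, huv, rfl, rfl⟩ := h2
        obtain ⟨_, ⟨w, hw, b, h3, h4⟩ | ⟨w, hw, b, h3, h4⟩⟩ := h1
        · exact hwb' w (hX hw) _ h3.symm
        · exact hwb' w (hX hw) _ h3.symm
      · obtain ⟨_, ⟨w, hw, b, h3, h4⟩ | ⟨w, hw, b, h3, h4⟩⟩ := h1 <;>
        obtain ⟨_, ⟨w', hw', b', h3', h4'⟩ | ⟨w', hw', b', h3', h4'⟩⟩ := h2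
        · rw [h3] at h3'
          have := Option.some_injective _ h3'
          subst this
          exact (Finset.disjoint_left.1 hXY hw hw').elim
        · rw [h3] at h4'
          exact (hwb' w (hX hw) _ h4').elim
        · rw [h4] at h3'
          exact (hwb' w' (hY hw') _ h3'.symm).elim
        · rw [h3] at h3'
          have := Option.some_injective _ h3'
          subst this
          exact (Finset.disjoint_left.1 hXY hw hw').elim
    have hfin : ∀ X ⊆ W, 2 ^ T ≤ X.card → ∀ F, NForces k T (Option B) F →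
        NForces (k + 1) T (Option A) (E X F) := by
      intro X hX hXc F hF
      refine ih hF ι' (X.map Function.Embedding.some) ?_ ?_ (by rwa [Finset.card_map])
      · intro b b' hbb
        exact Or.inl ((SimpleGraph.map_adj _ _ _ _).2 ⟨b, b', hbb, rfl, rfl⟩)
      · intro w hw b
        obtain ⟨w', hw', rfl⟩ := Finset.mem_map.1 hw
        refine Or.inr ((SimpleGraph.fromRel_adj _ _ _).2 ⟨hwb' w' (hX hw') b, Or.inl ?_⟩)
        exact ⟨w', hw', b, rfl, rfl⟩
    refine ⟨ι '' S' ∪ W, E W₀ E₀', E (W \ W₀) E₁', ?_, ?_, ?_, ?_⟩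
    · exact sup_le (hEle _ hW₀ _ hE0') (hEle _ Finset.sdiff_subset _ hE1')
    · exact hne _ hW₀ _ Finset.sdiff_subset Finset.disjoint_sdiff _ _ hd
    · exact hfin _ hW₀ hc₀.ge _ h0
    · exact hfin _ Finset.sdiff_subset hWc _ h1

/-- Idle rounds: Builder adds isolated vertices. -/
theorem idle (k T m : ℕ) (h : ∀ A : Type, ∀ _ : Fintype A, m ≤ Fintype.card A → NForces k T A ⊥) :
    ∀ (j : ℕ) (A : Type) (_ : Fintype A), m ≤ Fintype.card A + j → NForces k (T + j) A ⊥ := by
  intro j
  induction j with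
  | zero => exact fun A i hA => h A i hA
  | succ j ih =>
    intro A i hA
    have := ih (Option A) inferInstance (by rw [Fintype.card_option]; omega)
    exact ⟨∅, ⊥, ⊥, by simp, disjoint_bot_left, this, this⟩

theorem main_simplified : ∀ k : ℕ, ∃ T : ℕ, NForces k T Empty ⊥ := by
  intro k
  induction k with
  | zero =>
    refine ⟨0, ⟨⟨⟨fun i => i.elim0, fun {i} => i.elim0⟩, fun i => i.elim0⟩⟩⟩
  | succ k ih =>
    obtain ⟨T, hT⟩ := ih
    refine ⟨T + 2 ^ T, idle (k + 1) T (2 ^ T) ?_ (2 ^ T) Empty inferInstance (by simp)⟩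
    intro A _ hA
    refine pages k T hT (⟨fun e => e.elim, fun e => e.elim⟩ : Empty ↪ A) Finset.univ ?_ ?_ ?_
    · intro b; exact b.elim
    · intro w _ b; exact b.elim
    · simpa using hA

/-- There is a finite acyclic graph (in fact, a matching) from which Builder can force `K_k`. -/
theorem exists_forces (k : ℕ) : ∃ (t n : ℕ) (G : SimpleGraph (Fin n)), G.egirth = ⊤ ∧
    Forces (completeGraph (Fin k)) t (Fin n) G := by
  obtain ⟨T, hT⟩ := main_simplified k
  have hF := transfer k T hT
  obtain ⟨h1, h2⟩ := DR_finite T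
  obtain ⟨n, ⟨e⟩⟩ := Finite.exists_equiv_fin (Empty ⊕ (Empty × (DR T).1) ⊕ ((DR T).2 × Bool))
  let G := host (⊥ : SimpleGraph Empty) (DR T).1 (DR T).2
  let φ : G ≃g G.map e.toEmbedding := SimpleGraph.Iso.map e G
  refine ⟨T, n, G.map e.toEmbedding, ?_, Forces.mono T φ.isContained hF⟩
  rw [← φ.egirth_eq, egirth_eq_top]
  have huniq : ∀ x y z, G.Adj x y → G.Adj x z → y = z := by
    rintro (x | ⟨x, d⟩ | ⟨r, i⟩) (y | ⟨y, d'⟩ | ⟨r', i'⟩) (z | ⟨z, d''⟩ | ⟨r'', i''⟩) h h'
    all_goals first
      | exact x.elim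
      | exact y.elim
      | exact z.elim
      | skip
    obtain ⟨h3, h4⟩ := h
    obtain ⟨h5, h6⟩ := h'
    simp only at h3 h4 h5 h6
    subst h3
    subst h5
    have : i' = i'' := by
      cases i <;> cases i' <;> cases i'' <;> simp_all
    rw [this]
  intro v c hc
  have h3 := c.adj_snd hc.not_nil
  have h4 := c.adj_penultimate hc.not_nil
  exact hc.snd_ne_penultimate (huniq v _ _ h3 h4.symm)

/-- **Theorem.** `ρ(k, g) < ∞` for all integers `k, g ≥ 3`. -/
theorem result : ∀ k g : ℕ, 3 ≤ k → 3 ≤ g → rho k g < ⊤ := by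
  intro k g _ _
  obtain ⟨t, n, G, hG, hF⟩ := exists_forces k
  have h1 : tau (completeGraph (Fin k)) G ≤ t := iInf₂_le t hF
  have h2 : rho k g ≤ tau (completeGraph (Fin k)) G := by
    refine (iInf_le _ n).trans ((iInf_le _ G).trans (iInf_le _ ?_))
    rw [hG]
    exact le_top
  exact lt_of_le_of_lt (h2.trans h1) (ENat.natCast_lt_top t)

end Pool.Agent.Results.MP_d3b86e_co.CliqueForcing
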